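import Pool.Agent.Y63.NV.Stm5

/-!
# From a group to a subgroup of a bigger group (S_KDIMH), helper761
-/

set_option autoImplicit false

open scoped Classical

noncomputable section

namespace Pool.Agent.Y761.NV

open Pool.Agent.Y63.NV

section

variable {F Γ : Type} [Field F] [Group Γ]

/-- extension by zero -/
def ez (H : Subgroup Γ) : (H → F) →ₗ[F] (Γ → F) where
  toFun θ := fun x => if h : x ∈ H then θ ⟨x, h⟩ else 0
  map_add' a b := by
    funext x
    by_cases h : x ∈ H
    · simp only [Pi.add_apply, dif_pos h]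
    · simp only [Pi.add_apply, dif_neg h, add_zero]
  map_smul' c a := by
    funext x
    by_cases h : x ∈ H
    · simp only [Pi.smul_apply, dif_pos h, RingHom.id_apply]
    · simp only [Pi.smul_apply, dif_neg h, RingHom.id_apply, smul_zero]

theorem ez_mem (H : Subgroup Γ) (θ : H → F) (x : Γ) (h : x ∈ H) : ez H θ x = θ ⟨x, h⟩ :=
  dif_pos h

theorem ez_coe (H : Subgroup Γ) (θ : H → F) (x : H) : ez H θ x = θ x := dif_pos x.2

theorem ez_not (H : Subgroup Γ) (θ : H → F) (x : Γ) (h : x ∉ H) : ez H θ x = 0 := dif_neg h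

theorem ez_inj (H : Subgroup Γ) : Function.Injective (ez (F := F) H) := by
  intro a b hab
  funext x
  have h1 := congrFun hab (x : Γ)
  rw [ez_coe, ez_coe] at h1
  exact h1

theorem inter [Finite Γ] (H : Subgroup Γ) (z : Γ → F) (hz : ∀ x : Γ, x ∉ H → z x = 0)
    (θ : H → F) : Kop z (H : Set Γ) (ez H θ) = ez H (Kop (fun x : H => z x) Set.univ θ) := by
  funext x
  change Kfun z (H : Set Γ) (ez H θ) x = ez H (Kfun (fun x : H => z x) Set.univ θ) x
  unfold Kfun
  by_cases hx : x ∈ H
  · rw [if_pos (show x ∈ (H : Set Γ) from hx), ez_mem H _ x hx, if_pos (Set.mem_univ _)]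
    have h1 : Function.support (fun g : Γ => z g * ez H θ (g * x)) ⊆
        Set.range (Subtype.val : H → Γ) := by
      intro g hg
      by_contra hc
      apply hg
      have h2 : g ∉ H := fun h => hc ⟨⟨g, h⟩, rfl⟩
      change z g * ez H θ (g * x) = 0
      rw [hz g h2, zero_mul]
    have h3 : ∑ᶠ g : Γ, z g * ez H θ (g * x) =
        ∑ᶠ g ∈ Set.range (Subtype.val : H → Γ), z g * ez H θ (g * x) := by
      refine finsum_congr fun g => ?_
      by_cases hg : g ∈ Set.range (Subtype.val : H → Γ)
      · rw [finsum_eq_if, if_pos hg]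
      · rw [finsum_eq_if, if_neg hg]
        by_contra hc
        exact hg (h1 hc)
    rw [h3, finsum_mem_range Subtype.val_injective]
    refine finsum_congr fun g => ?_
    rw [ez_mem H θ ((g : Γ) * x) (H.mul_mem g.2 hx)]
    rfl
  · rw [if_neg (show x ∉ (H : Set Γ) from hx), ez_not H _ x hx]

/-- generalised eigenspaces and injective intertwining maps -/
theorem gen_iff {A B : Type} [AddCommGroup A] [Module F A] [AddCommGroup B] [Module F B]
    (i : A →ₗ[F] B) (hi : Function.Injective i) (T : Module.End F A) (U : Module.End F B)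
    (h : ∀ a, U (i a) = i (T a)) (c : F) (a : A) :
    i a ∈ U.maxGenEigenspace c ↔ a ∈ T.maxGenEigenspace c := by
  have h1 : ∀ (k : ℕ) (a : A), ((U - algebraMap F (Module.End F B) c) ^ k) (i a) =
      i (((T - algebraMap F (Module.End F A) c) ^ k) a) := by
    intro k
    induction k with
    | zero => intro a; rw [pow_zero, pow_zero]; rfl
    | succ k ih =>
      intro a
      rw [pow_succ, pow_succ, Module.End.mul_apply, Module.End.mul_apply]
      have h2 : (U - algebraMap F (Module.End F B) c) (i a) =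
          i ((T - algebraMap F (Module.End F A) c) a) := by
        rw [LinearMap.sub_apply, LinearMap.sub_apply, h, Module.algebraMap_end_apply,
          Module.algebraMap_end_apply, map_sub, map_smul]
      rw [h2, ih]
  rw [Module.End.mem_maxGenEigenspace, Module.End.mem_maxGenEigenspace]
  constructor
  · rintro ⟨k, hk⟩
    refine ⟨k, hi ?_⟩
    rw [map_zero, ← hk]
    exact (h1 k a).symm
  · rintro ⟨k, hk⟩
    refine ⟨k, ?_⟩
    have h3 := h1 k a
    rw [show ((T - algebraMap F (Module.End F A) c) ^ k) a = 0 from hk, map_zero] at h3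
    exact h3

theorem gk_eq [Finite Γ] (H : Subgroup Γ) (z : Γ → F) (c : F)
    (hz : ∀ x : Γ, x ∉ H → z x = 0) :
    gk (fun x : H => z x) Set.univ (⊤ : Subgroup H) c = gk z (H : Set Γ) H c := by
  unfold gk
  have key : (VS (F := F) (Set.univ : Set H) (⊤ : Subgroup H) ⊓
      (Kop (fun x : H => z x) Set.univ).maxGenEigenspace c).map (ez H) =
      VS (F := F) (H : Set Γ) H ⊓ (Kop z (H : Set Γ)).maxGenEigenspace c := by
    ext η
    rw [Submodule.mem_map]
    constructor
    · rintro ⟨θ, ⟨h1, h2⟩, rfl⟩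
      refine ⟨⟨fun x hx => ez_not H θ x hx, fun j hj x => ?_⟩,
        (gen_iff (ez H) (ez_inj H) _ _ (inter H z hz) c θ).2 h2⟩
      by_cases hx : x ∈ H
      · have h3 : j * x * j⁻¹ ∈ H := H.mul_mem (H.mul_mem hj hx) (H.inv_mem hj)
        rw [ez_mem H θ _ h3, ez_mem H θ _ hx]
        exact h1.2 ⟨j, hj⟩ trivial ⟨x, hx⟩
      · have h3 : j * x * j⁻¹ ∉ H := by
          intro h
          apply hx
          have h4 := H.mul_mem (H.mul_mem (H.inv_mem hj) h) hj
          have h5 : j⁻¹ * (j * x * j⁻¹) * j = x := by group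
          rw [h5] at h4
          exact h4
        rw [ez_not H θ _ h3, ez_not H θ _ hx]
    · rintro ⟨h1, h2⟩
      have h3 : ez H (fun x : H => η x) = η := by
        funext x
        by_cases hx : x ∈ H
        · rw [ez_mem H _ x hx]
        · rw [ez_not H _ x hx]
          exact (h1.1 x hx).symm
      refine ⟨fun x : H => η x, ⟨⟨fun x hx => absurd (Set.mem_univ x) hx, fun j _ x => ?_⟩, ?_⟩, h3⟩
      · exact h1.2 j.1 j.2 x.1
      · refine (gen_iff (ez H) (ez_inj H) _ _ (inter H z hz) c _).1 ?_
        rw [h3]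
        exact h2
  rw [← key]
  exact (Submodule.equivMapOfInjective (ez H) (ez_inj H) _).finrank_eq

end

theorem kdimh (h : S_KDIM) : S_KDIMH := by
  intro p _ F _ _ _ red Γ _ _ H z c hinv hz
  rw [← gk_eq H z c hz]
  refine h p F red H (fun x : H => z x) c fun g x => ?_
  exact hinv g g.2 x

end Pool.Agent.Y761.NV
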